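import Mathlib

/-!
# Small monochromatic rectangles in a 2-coloured plane (MP_f86233_co): definitions and statements
-/

set_option autoImplicit false

namespace Pool.Agent.K4H20.RC

/-- the Euclidean plane -/
abbrev E2 : Type := EuclideanSpace ℝ (Fin 2)

/-- `s` is a `d₁ × d₂` rectangle: congruent to `{(0,0), (d₁,0), (0,d₂), (d₁,d₂)}` -/
def IsRect (d₁ d₂ : ℝ) (s : Set E2) : Prop :=
  ∃ e : E2 ≃ᵢ E2, s = e '' {!₂[0, 0], !₂[d₁, 0], !₂[0, d₂], !₂[d₁, d₂]}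

/-- `S(N)`: every 2-colouring of the plane contains a monochromatic `m × n` rectangle with
`m = 1, 2` and `1 ≤ n ≤ N` -/
def S (N : ℕ) : Prop :=
  ∀ c : E2 → Bool, ∃ m n : ℕ, (m = 1 ∨ m = 2) ∧ 1 ≤ n ∧ n ≤ N ∧
    ∃ s : Set E2, IsRect m n s ∧ ∀ p ∈ s, ∀ q ∈ s, c p = c q

/-- coordinates with respect to `1, w, w², w³`, `w = exp (π i / 6)` -/
abbrev Z4 : Type := ℤ × ℤ × ℤ × ℤ

/-- the three frames: `1, w³`; `w, w⁴`; `w², w⁵` -/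
def fu : Fin 3 → Z4 := ![(1, 0, 0, 0), (0, 1, 0, 0), (0, 0, 1, 0)]

def fv : Fin 3 → Z4 := ![(0, 0, 0, 1), (-1, 0, 1, 0), (0, -1, 0, 1)]

/-- `g` is a colouring of `Z4` without monochromatic `m × n` rectangles in the three frames -/
def Good (g : Z4 → Bool) : Prop :=
  ∀ (p : Z4) (k : Fin 3) (m n : ℕ), 1 ≤ m → 1 ≤ n →
    ((m ≤ 2 ∧ n ≤ 4) ∨ (m ≤ 4 ∧ n ≤ 2)) →
    ¬ (g p = g (p + m • fu k) ∧ g p = g (p + n • fv k) ∧ g p = g (p + m • fu k + n • fv k))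

/-- [GEO] -/
def StGeo : Prop := ¬ S 4 → ∃ g : Z4 → Bool, Good g

/-- [COMB] -/
def StComb : Prop := ∀ g : Z4 → Bool, ¬ Good g

end Pool.Agent.K4H20.RC
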